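import Pool.Agent.Q18.HQ.Stmts

set_option autoImplicit false

namespace Pool.Agent.Q54.HQ.TaskHankel

theorem det5 (t : ℚ) : (!![5, 0, 26, 0, 194; 0, 26, 0, 194, 5 * t; 26, 0, 194, 5 * t, 1586;
    0, 194, 5 * t, 1586, 91 * t; 194, 5 * t, 1586, 91 * t, 13634] : Matrix (Fin 5) (Fin 5) ℚ).det =
    3125 * t ^ 4 - 2612844 * t ^ 2 + 466560000 := by
  simp [Matrix.det_succ_row_zero, Fin.sum_univ_succ, Fin.succAbove]
  ring

theorem main : Pool.Agent.Q18.HQ.TaskHankel := by
  intro s t h1 h2 h3 h4 h5 h6 h7 h8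
  refine ⟨(Matrix.vandermonde s).det, ?_⟩
  have hV : (Matrix.vandermonde s).transpose * Matrix.vandermonde s =
      !![5, 0, 26, 0, 194; 0, 26, 0, 194, 5 * t; 26, 0, 194, 5 * t, 1586;
        0, 194, 5 * t, 1586, 91 * t; 194, 5 * t, 1586, 91 * t, 13634] := by
    have h0 : ∑ i : Fin 5, s i ^ 0 = 5 := by simp
    have h1' : ∑ i : Fin 5, s i ^ 1 = 0 := by simpa using h1
    ext i j
    rw [Matrix.vandermonde_transpose_mul_vandermonde]
    fin_cases i <;> fin_cases j <;>
      first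
      | exact h0 | exact h1' | exact h2 | exact h3 | exact h4 | exact h5 | exact h6 | exact h7
      | exact h8
  rw [← det5 t, ← hV, Matrix.det_mul, Matrix.det_transpose, sq]

end Pool.Agent.Q54.HQ.TaskHankel
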